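import Mathlib

/-!
MP_71c16a_nt (project of helper42): the combinatorial lemma K. Items with costs `k i`, a measure `w` on the sets of at most
`p` items such that the measure of the sets that meet `Z` is at most one whenever the cost of `Z` is at most `s`; if the total
cost is at most `p (s + 1)`, then the integral of the number of elements is at most `2 p`.
-/

set_option linter.unusedSectionVars false
set_option linter.unusedVariables false

open Finset

namespace KL

variable {ι : Type*} [DecidableEq ι]

/-- the measure of the sets that meet `Z` -/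
noncomputable def hit (Q : Finset ι) (w : Finset ι → ℝ) (Z : Finset ι) : ℝ := ∑ X ∈ Q.powerset, if Disjoint X Z then 0 else w X

/-- the measures under consideration -/
structure Adm (p : ℕ) (k : ι → ℕ) (s : ℕ) (Q : Finset ι) (w : Finset ι → ℝ) : Prop where
  nn : ∀ X, 0 ≤ w X
  supp : ∀ X, p < X.card → w X = 0
  le : ∀ Z ⊆ Q, ∑ i ∈ Z, k i ≤ s → hit Q w Z ≤ 1

/-- the integral of the number of elements -/
noncomputable def tot (Q : Finset ι) (w : Finset ι → ℝ) : ℝ := ∑ X ∈ Q.powerset, w X * X.card

/-- a bound for the value -/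
def Bd (p : ℕ) (k : ι → ℕ) (s : ℕ) (Q : Finset ι) (v : ℝ) : Prop := ∀ w, Adm p k s Q w → tot Q w ≤ v

variable {p : ℕ} {k : ι → ℕ} {s : ℕ} {Q : Finset ι} {w : Finset ι → ℝ}

theorem tot_eq (Q : Finset ι) (w : Finset ι → ℝ) : tot Q w = ∑ i ∈ Q, hit Q w {i} := by
  unfold tot hit
  rw [Finset.sum_comm]
  refine Finset.sum_congr rfl fun X hX => ?_
  rw [Finset.mem_powerset] at hX
  have h1 : ∀ i ∈ Q, (if Disjoint X {i} then 0 else w X) = if i ∈ X then w X else 0 := by
    intro i _
    by_cases h2 : i ∈ X
    · rw [if_pos h2, if_neg]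
      rw [Finset.disjoint_singleton_right]
      exact not_not.2 h2
    · rw [if_neg h2, if_pos]
      rw [Finset.disjoint_singleton_right]
      exact h2
  rw [Finset.sum_congr rfl h1, Finset.sum_ite_mem, Finset.inter_eq_right.2 hX, Finset.sum_const, nsmul_eq_mul, mul_comm]

/-- the trivial bound -/
theorem Bd.triv (hk : ∀ i ∈ Q, k i ≤ s) : Bd p k s Q Q.card := by
  intro w h
  rw [tot_eq]
  calc ∑ i ∈ Q, hit Q w {i} ≤ ∑ i ∈ Q, (1 : ℝ) := Finset.sum_le_sum fun i hi =>
        h.le {i} (Finset.singleton_subset_iff.2 hi) (by rw [Finset.sum_singleton]; exact hk i hi)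
    _ = Q.card := by simp

theorem Bd.mono {v v' : ℝ} (h : Bd p k s Q v) (hv : v ≤ v') : Bd p k s Q v' := fun w hw => (h w hw).trans hv

section ins

variable {i : ι} (hi : i ∉ Q)
include hi

theorem hit_insert (w : Finset ι → ℝ) {Z : Finset ι} (hZ : i ∉ Z) :
    hit (insert i Q) w Z = hit Q (fun X => w X + w (insert i X)) Z := by
  unfold hit
  rw [Finset.sum_powerset_insert hi, ← Finset.sum_add_distrib]
  refine Finset.sum_congr rfl fun X _ => ?_
  have h1 : Disjoint (insert i X) Z ↔ Disjoint X Z := by
    rw [Finset.disjoint_insert_left]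
    exact ⟨fun h => h.2, fun h => ⟨hZ, h⟩⟩
  simp only [h1]
  split_ifs <;> simp

theorem hit_insert' (w : Finset ι → ℝ) {Z : Finset ι} (hZ : i ∉ Z) :
    hit (insert i Q) w (insert i Z) = hit Q w Z + ∑ X ∈ Q.powerset, w (insert i X) := by
  unfold hit
  rw [Finset.sum_powerset_insert hi]
  congr 1
  · refine Finset.sum_congr rfl fun X hX => ?_
    have h1 : Disjoint X (insert i Z) ↔ Disjoint X Z := by
      rw [Finset.disjoint_insert_right]
      exact ⟨fun h => h.2, fun h => ⟨fun h2 => hi (Finset.mem_powerset.1 hX h2), h⟩⟩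
    simp only [h1]
  · refine Finset.sum_congr rfl fun X hX => ?_
    rw [if_neg]
    rw [Finset.disjoint_insert_left]
    rintro ⟨h1, -⟩
    exact h1 (Finset.mem_insert_self _ _)

theorem tot_insert (w : Finset ι → ℝ) : tot (insert i Q) w = tot Q (fun X => w X + w (insert i X)) +
    ∑ X ∈ Q.powerset, w (insert i X) := by
  unfold tot
  rw [Finset.sum_powerset_insert hi, ← Finset.sum_add_distrib, ← Finset.sum_add_distrib]
  refine Finset.sum_congr rfl fun X hX => ?_
  rw [Finset.card_insert_of_notMem (fun h2 => hi (Finset.mem_powerset.1 hX h2))]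
  push_cast
  ring

theorem Adm.theta (h : Adm p k s (insert i Q) w) (hk : k i ≤ s) : ∑ X ∈ Q.powerset, w (insert i X) ≤ 1 := by
  have h1 := h.le {i} (by simp) (by simpa using hk)
  have h2 := hit_insert' hi w (Z := ∅) (by simp)
  have h3 : hit Q w ∅ = 0 := by
    unfold hit
    refine Finset.sum_eq_zero fun X _ => ?_
    rw [if_pos (Finset.disjoint_empty_right _)]
  rw [h3, zero_add] at h2
  rw [← h2]
  simpa using h1

theorem Adm.rem (h : Adm p k s (insert i Q) w) : Adm p k s Q fun X => w X + w (insert i X) where
  nn := fun X => add_nonneg (h.nn _) (h.nn _)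
  supp := fun X hX => by
    show w X + w (insert i X) = 0
    rw [h.supp X hX, h.supp (insert i X) (hX.trans_le (Finset.card_le_card (Finset.subset_insert _ _))), add_zero]
  le := fun Z hZ hs => by
    rw [← hit_insert hi w (fun h1 => hi (hZ h1))]
    exact h.le Z (hZ.trans (Finset.subset_insert _ _)) hs

/-- removal of an item -/
theorem Bd.rem {v : ℝ} (hk : k i ≤ s) (h : Bd p k s Q v) : Bd p k s (insert i Q) (1 + v) := by
  intro w hw
  rw [tot_insert hi, add_comm (1 : ℝ)]
  exact add_le_add (h _ (hw.rem hi)) (hw.theta hi hk)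

/-- contraction of an item -/
theorem Bd.con {b e : ℝ} (hk : k i ≤ s) (hc : ∀ j ∈ Q, k j ≤ s - k i) (hb : 0 ≤ b) (h1 : Bd p k s Q (p + e))
    (h2 : Bd p k (s - k i) Q (p + b)) : Bd p k s (insert i Q) (p + b * (1 + e) / (1 + b)) := by
  intro w hw
  obtain ⟨θ, hθ⟩ : ∃ θ, θ = ∑ X ∈ Q.powerset, w (insert i X) := ⟨_, rfl⟩
  have hθ1 : θ ≤ 1 := hθ ▸ hw.theta hi hk
  have hθ0 : 0 ≤ θ := hθ ▸ Finset.sum_nonneg fun X _ => hw.nn _
  have e1 : tot (insert i Q) w ≤ p + e + θ := by
    rw [tot_insert hi, ← hθ]
    exact add_le_add_left (h1 _ (hw.rem hi)) _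
  have e2 : tot (insert i Q) w ≤ tot Q w + p * θ := by
    unfold tot
    rw [Finset.sum_powerset_insert hi, hθ, Finset.mul_sum]
    refine add_le_add_right (Finset.sum_le_sum fun X _ => ?_) _
    by_cases hX : p < (insert i X).card
    · rw [hw.supp _ hX]
      simp
    · rw [mul_comm]
      exact mul_le_mul_of_nonneg_right (by exact_mod_cast not_lt.1 hX) (hw.nn _)
  have e3 : ∀ Z ⊆ Q, ∑ j ∈ Z, k j ≤ s - k i → hit Q w Z ≤ 1 - θ := by
    intro Z hZ hs
    have hiZ : i ∉ Z := fun h => hi (hZ h)
    have h3 := hw.le (insert i Z) (Finset.insert_subset_insert _ hZ) (by rw [Finset.sum_insert hiZ]; omega)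
    rw [hit_insert' hi w hiZ, ← hθ] at h3
    linarith
  have e4 : tot Q w ≤ (1 - θ) * (p + b) := by
    rcases hθ1.lt_or_eq with h3 | h3
    · have h4 : 0 < 1 - θ := by linarith
      have h5 := h2 (fun X => w X / (1 - θ)) ⟨fun X => div_nonneg (hw.nn X) h4.le, fun X hX => by
        show w X / (1 - θ) = 0
        rw [hw.supp X hX, zero_div], fun Z hZ hs => by
        have h6 : hit Q (fun X => w X / (1 - θ)) Z = hit Q w Z / (1 - θ) := by
          unfold hit
          rw [Finset.sum_div]
          refine Finset.sum_congr rfl fun X _ => ?_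
          split_ifs <;> simp
        rw [h6, div_le_one h4]
        exact e3 Z hZ hs⟩
      have h6 : tot Q (fun X => w X / (1 - θ)) = tot Q w / (1 - θ) := by
        unfold tot
        rw [Finset.sum_div]
        refine Finset.sum_congr rfl fun X _ => ?_
        ring
      rw [h6, div_le_iff₀ h4] at h5
      linarith
    · rw [h3, sub_self, zero_mul, tot_eq]
      refine Finset.sum_nonpos fun j hj => ?_
      have h4 := e3 {j} (Finset.singleton_subset_iff.2 hj) (by rw [Finset.sum_singleton]; exact hc j hj)
      linarith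
  have e5 : tot (insert i Q) w - p ≤ (1 - θ) * b := by
    have : (1 - θ) * (p + b) + p * θ = p + (1 - θ) * b := by ring
    linarith
  have e6 : tot (insert i Q) w - p ≤ e + θ := by linarith
  have e7 : (tot (insert i Q) w - p) * (1 + b) ≤ b * (1 + e) := by
    have h3 := mul_le_mul_of_nonneg_left e6 hb
    nlinarith
  have h4 : 0 < 1 + b := by linarith
  have h5 := (le_div_iff₀ h4).2 e7
  linarith

end ins

/-- the numerator of the potential -/
noncomputable def pot (k : ι → ℕ) (x : ℝ) (B R : Finset ι) (a : ℕ) : ℝ :=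
  ∑ i ∈ R, (k i : ℝ) + ∑ i ∈ B, max ((k i : ℝ) - x) 0 + a

theorem pot_nonneg (k : ι → ℕ) (x : ℝ) (B R : Finset ι) (a : ℕ) : 0 ≤ pot k x B R a :=
  add_nonneg (add_nonneg (Finset.sum_nonneg fun i _ => Nat.cast_nonneg _)
    (Finset.sum_nonneg fun i _ => le_max_right _ _)) (Nat.cast_nonneg _)

/-- the bound by the potential -/
theorem main (hp : 1 ≤ p) {x : ℝ} : ∀ (m : ℕ) (B R : Finset ι) (a : ℕ), R.card = m → Disjoint B R → B.card = p →
    (∀ i ∈ R, ∀ j ∈ B, k i ≤ k j) → a ≤ s → (∀ i ∈ B ∪ R, k i ≤ s - a) → 0 < (s : ℝ) + 1 - x - a →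
    (∀ i ∈ R, (k i : ℝ) ≤ x ∨ (s : ℝ) + 1 - x ≤ k i) →
    Bd p k (s - a) (B ∪ R) (p + pot k x B R a / ((s : ℝ) + 1 - x - a)) := by
  intro m
  induction m with
  | zero =>
    intro B R a hR _ hB _ _ hk hc _
    rw [Finset.card_eq_zero] at hR
    subst hR
    rw [Finset.union_empty] at hk ⊢
    refine (Bd.triv hk).mono ?_
    rw [hB]
    have := div_nonneg (pot_nonneg k x B ∅ a) hc.le
    linarith
  | succ m ih =>
    intro B R a hR hBR hB hle has hk hc hx
    have hRne : R.Nonempty := Finset.card_pos.1 (by omega)
    have hBne : B.Nonempty := Finset.card_pos.1 (by omega)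
    obtain ⟨i, hiR, hi⟩ := Finset.exists_min_image R k hRne
    obtain ⟨c, hcc⟩ : ∃ c : ℝ, c = (s : ℝ) + 1 - x - a := ⟨_, rfl⟩
    rw [← hcc] at hc ⊢
    have hiB : i ∉ B := fun h => Finset.disjoint_left.1 hBR h hiR
    -- the smallest item taken away
    have hQ : B ∪ R = insert i (B ∪ R.erase i) := by
      rw [← Finset.union_insert, Finset.insert_erase hiR]
    have hiQ : i ∉ B ∪ R.erase i := by
      rw [Finset.mem_union]
      rintro (h | h)
      · exact hiB h
      · exact (Finset.notMem_erase i R) h
    have hR' : (R.erase i).card = m := by rw [Finset.card_erase_of_mem hiR, hR]; rfl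
    have hBR' : Disjoint B (R.erase i) := hBR.mono_right (Finset.erase_subset _ _)
    have hle' : ∀ a ∈ R.erase i, ∀ j ∈ B, k a ≤ k j := fun a ha => hle a (Finset.mem_of_mem_erase ha)
    have hx' : ∀ a ∈ R.erase i, (k a : ℝ) ≤ x ∨ (s : ℝ) + 1 - x ≤ k a := fun a ha => hx a (Finset.mem_of_mem_erase ha)
    have hsub : B ∪ R.erase i ⊆ B ∪ R := Finset.union_subset_union_right (Finset.erase_subset _ _)
    have hpot : pot k x B (R.erase i) a = pot k x B R a - k i := by
      unfold pot
      rw [← Finset.add_sum_erase R (fun i => (k i : ℝ)) hiR]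
      ring
    have hki : k i ≤ s - a := hk i (Finset.mem_union_right _ hiR)
    have hrem := ih B (R.erase i) a hR' hBR' hB hle' has (fun j hj => hk j (hsub hj)) (by rw [← hcc]; exact hc) hx'
    rw [← hcc, hpot] at hrem
    by_cases h1 : c ≤ k i
    · rw [hQ]
      refine (Bd.rem hiQ hki hrem).mono ?_
      have h2 : (pot k x B R a - k i) / c = pot k x B R a / c - k i / c := sub_div _ _ _
      have h3 : 1 ≤ (k i : ℝ) / c := (one_le_div hc).2 h1
      rw [h2]
      linarith
    · push Not at h1
      have hix : (k i : ℝ) ≤ x := by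
        rcases hx i hiR with h2 | h2
        · exact h2
        · exfalso
          have : (0 : ℝ) ≤ a := Nat.cast_nonneg _
          linarith
      by_cases hcomp : ∀ j ∈ B ∪ R.erase i, k j ≤ s - a - k i
      · -- all items are compatible with the smallest one
        have hc' : 0 < c - k i := by linarith
        have hcast : ((a + k i : ℕ) : ℝ) = (a : ℝ) + k i := by push_cast; ring
        have hcon := ih B (R.erase i) (a + k i) hR' hBR' hB hle' (by omega) (fun j hj => by
          rw [← Nat.sub_sub]
          exact hcomp j hj) (by rw [hcast]; linarith) hx'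
        have hpot' : pot k x B (R.erase i) (a + k i) = pot k x B R a := by
          unfold pot
          rw [← Finset.add_sum_erase R (fun i => (k i : ℝ)) hiR, hcast]
          ring
        have hcc' : (s : ℝ) + 1 - x - ((a + k i : ℕ) : ℝ) = c - k i := by rw [hcast, hcc]; ring
        rw [hpot', hcc', ← Nat.sub_sub] at hcon
        rw [hQ]
        have hb : 0 ≤ pot k x B R a / (c - k i) := div_nonneg (pot_nonneg _ _ _ _ _) hc'.le
        refine (Bd.con hiQ hki hcomp hb hrem hcon).mono ?_
        have hD := pot_nonneg k x B R a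
        have hne : c - (k i : ℝ) + pot k x B R a ≠ 0 := by linarith
        have : pot k x B R a / (c - k i) * (1 + (pot k x B R a - k i) / c) / (1 + pot k x B R a / (c - k i)) =
            pot k x B R a / c := by
          have hc1 : c ≠ 0 := hc.ne'
          have hc2 : c - (k i : ℝ) ≠ 0 := hc'.ne'
          field_simp
          ring
        rw [this]
      · -- the largest item is not compatible with the smallest one
        push Not at hcomp
        obtain ⟨j0, hj0, hj0k⟩ := hcomp
        obtain ⟨j, hjB, hj⟩ := Finset.exists_max_image B k hBne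
        obtain ⟨n, hnR, hn⟩ := Finset.exists_max_image R k hRne
        have hjbig : s - a - k i < k j := by
          refine hj0k.trans_le ?_
          rcases Finset.mem_union.1 hj0 with h2 | h2
          · exact hj j0 h2
          · exact hle j0 (Finset.mem_of_mem_erase h2) j hjB
        have hjR : j ∉ R := fun h => Finset.disjoint_left.1 hBR hjB h
        have hnB : n ∉ B := fun h => Finset.disjoint_left.1 hBR h hnR
        have hne : n ≠ j := fun h => hnB (h ▸ hjB)
        have hQ2 : B ∪ R = insert j (insert n (B.erase j) ∪ R.erase n) := by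
          ext y
          simp only [Finset.mem_union, Finset.mem_insert, Finset.mem_erase]
          constructor
          · rintro (h | h)
            · by_cases hy : y = j
              · exact Or.inl hy
              · exact Or.inr (Or.inl (Or.inr ⟨hy, h⟩))
            · by_cases hy : y = n
              · exact Or.inr (Or.inl (Or.inl hy))
              · exact Or.inr (Or.inr ⟨hy, h⟩)
          · rintro (h | (h | h) | h)
            · exact Or.inl (h ▸ hjB)
            · exact Or.inr (h ▸ hnR)
            · exact Or.inl h.2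
            · exact Or.inr h.2
        have hjQ : j ∉ insert n (B.erase j) ∪ R.erase n := by
          simp only [Finset.mem_union, Finset.mem_insert, Finset.mem_erase]
          rintro ((h | h) | h)
          · exact hne h.symm
          · exact h.1 rfl
          · exact hjR h.2
        have hsub2 : insert n (B.erase j) ∪ R.erase n ⊆ B ∪ R := by
          rw [hQ2]
          exact Finset.subset_insert _ _
        have hrem2 := ih (insert n (B.erase j)) (R.erase n) a (by rw [Finset.card_erase_of_mem hnR, hR]; rfl) (by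
            rw [Finset.disjoint_left]
            intro y hy hy2
            rw [Finset.mem_erase] at hy2
            rcases Finset.mem_insert.1 hy with h | h
            · exact hy2.1 h
            · exact Finset.disjoint_left.1 hBR (Finset.mem_of_mem_erase h) hy2.2)
          (by
            rw [Finset.card_insert_of_notMem (fun h => hnB (Finset.mem_of_mem_erase h)), Finset.card_erase_of_mem hjB, hB]
            omega)
          (by
            intro y hy z hz
            rcases Finset.mem_insert.1 hz with h | h
            · rw [h]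
              exact hn y (Finset.mem_of_mem_erase hy)
            · exact hle y (Finset.mem_of_mem_erase hy) z (Finset.mem_of_mem_erase h)) has
          (fun y hy => hk y (hsub2 hy)) (by rw [← hcc]; exact hc)
          (fun y hy => hx y (Finset.mem_of_mem_erase hy))
        rw [← hcc] at hrem2
        have hkj : k j ≤ s - a := hk j (Finset.mem_union_left _ hjB)
        rw [hQ2]
        refine (Bd.rem hjQ hkj hrem2).mono ?_
        have hdiff : pot k x (insert n (B.erase j)) (R.erase n) a + c ≤ pot k x B R a := by
          unfold pot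
          rw [Finset.sum_insert (fun h => hnB (Finset.mem_of_mem_erase h)),
            ← Finset.add_sum_erase R (fun i => (k i : ℝ)) hnR,
            ← Finset.add_sum_erase B (fun i => max ((k i : ℝ) - x) 0) hjB]
          have h2 : c - k i ≤ max ((k j : ℝ) - x) 0 := by
            refine le_trans ?_ (le_max_left _ _)
            have h3 : s + 1 ≤ a + k i + k j := by omega
            have h4 : (s : ℝ) + 1 ≤ a + k i + k j := by exact_mod_cast h3
            rw [hcc]
            linarith
          have h3 : (k i : ℝ) + max ((k n : ℝ) - x) 0 ≤ k n := by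
            have h4 : (k i : ℝ) ≤ k n := by exact_mod_cast hi n hnR
            rcases le_total ((k n : ℝ) - x) 0 with h5 | h5
            · rw [max_eq_right h5]
              linarith
            · rw [max_eq_left h5]
              linarith
          linarith
        have h2 : 1 + pot k x (insert n (B.erase j)) (R.erase n) a / c ≤ pot k x B R a / c := by
          rw [← div_self hc.ne', ← add_div]
          exact div_le_div_of_nonneg_right (by linarith) hc.le
        linarith

/-- Lemma K -/
theorem lemmaK [Fintype ι] (k : ι → ℕ) (p s : ℕ) (hk1 : ∀ i, 1 ≤ k i) (hks : ∀ i, k i ≤ s) (hK : ∑ i, k i ≤ p * (s + 1))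
    (w : Finset ι → ℝ) (hw : ∀ X, 0 ≤ w X) (hsupp : ∀ X, p < X.card → w X = 0)
    (hhit : ∀ Z : Finset ι, ∑ i ∈ Z, k i ≤ s → ∑ X, (if Disjoint X Z then 0 else w X) ≤ 1) :
    ∑ X, w X * X.card ≤ 2 * p := by
  have hadm : Adm p k s Finset.univ w := by
    refine ⟨hw, hsupp, fun Z _ hZ => ?_⟩
    have := hhit Z hZ
    unfold hit
    rwa [Finset.powerset_univ]
  have htot : ∑ X, w X * X.card = tot Finset.univ w := by
    unfold tot
    rw [Finset.powerset_univ]
  rw [htot]
  rcases Nat.eq_zero_or_pos p with hp0 | hp
  · subst hp0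
    unfold tot
    refine le_of_eq ?_
    rw [Nat.cast_zero, mul_zero]
    refine Finset.sum_eq_zero fun X _ => ?_
    rcases Nat.eq_zero_or_pos X.card with h1 | h1
    · rw [h1]
      simp
    · rw [hsupp X h1, zero_mul]
  by_cases hN : Fintype.card ι < p
  · refine ((Bd.triv (p := p) (k := k) (s := s) (Q := Finset.univ) fun i _ => hks i) w hadm).trans ?_
    rw [Finset.card_univ]
    have : (Fintype.card ι : ℝ) ≤ p := by exact_mod_cast hN.le
    have : (0 : ℝ) ≤ p := Nat.cast_nonneg _
    linarith
  push Not at hN
  -- the largest items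
  obtain ⟨B, hB, hle⟩ : ∃ B : Finset ι, B.card = p ∧ ∀ i ∈ Bᶜ, ∀ j ∈ B, k i ≤ k j := by
    have : ∀ q ≤ Fintype.card ι, ∃ B : Finset ι, B.card = q ∧ ∀ i ∈ Bᶜ, ∀ j ∈ B, k i ≤ k j := by
      intro q
      induction q with
      | zero =>
        intro _
        exact ⟨∅, rfl, fun i _ j hj => absurd hj (Finset.notMem_empty j)⟩
      | succ q ih =>
        intro hq
        obtain ⟨B, hB, hle⟩ := ih (by omega)
        have hne : Bᶜ.Nonempty := by
          rw [← Finset.card_pos, Finset.card_compl]
          omega
        obtain ⟨n, hnB, hn⟩ := Finset.exists_max_image Bᶜ k hne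
        refine ⟨insert n B, ?_, ?_⟩
        · rw [Finset.card_insert_of_notMem (Finset.mem_compl.1 hnB), hB]
        · intro i hi j hj
          rw [Finset.mem_compl, Finset.mem_insert, not_or] at hi
          rcases Finset.mem_insert.1 hj with h | h
          · rw [h]
            exact hn i (Finset.mem_compl.2 hi.2)
          · exact hle i (Finset.mem_compl.2 hi.2) j h
    exact this p hN
  have hBne : B.Nonempty := Finset.card_pos.1 (by omega)
  obtain ⟨m, hmB, hm⟩ := Finset.exists_min_image B k hBne
  obtain ⟨x, hx⟩ : ∃ x : ℝ, x = min (k m : ℝ) (((s : ℝ) + 1) / 2) := ⟨_, rfl⟩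
  have hx1 : x ≤ k m := hx ▸ min_le_left _ _
  have hx2 : x ≤ ((s : ℝ) + 1) / 2 := hx ▸ min_le_right _ _
  have hs0 : (0 : ℝ) ≤ s := Nat.cast_nonneg _
  have hc : 0 < (s : ℝ) + 1 - x := by linarith
  have key := main (s := s) (k := k) hp (x := x) (Bᶜ).card B Bᶜ 0 rfl disjoint_compl_right hB hle (Nat.zero_le _)
    (fun i _ => by rw [Nat.sub_zero]; exact hks i) (by rw [Nat.cast_zero, sub_zero]; exact hc) (by
      intro i hi
      rcases le_total (k m : ℝ) (((s : ℝ) + 1) / 2) with h1 | h1
      · left
        rw [hx, min_eq_left h1]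
        exact_mod_cast hle i hi m hmB
      · rw [min_eq_right h1] at hx
        rcases le_total (k i : ℝ) x with h2 | h2
        · exact Or.inl h2
        · right
          linarith)
  rw [Nat.sub_zero, Nat.cast_zero, sub_zero, Finset.union_compl] at key
  refine (key w hadm).trans ?_
  have hpot : pot k x B Bᶜ 0 = (∑ i, (k i : ℝ)) - p * x := by
    unfold pot
    have h1 : ∀ i ∈ B, max ((k i : ℝ) - x) 0 = (k i : ℝ) - x := by
      intro i hi
      apply max_eq_left
      have : (k m : ℝ) ≤ k i := by exact_mod_cast hm i hi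
      linarith
    rw [Finset.sum_congr rfl h1, Finset.sum_sub_distrib, Finset.sum_const, hB, nsmul_eq_mul, Nat.cast_zero, add_zero,
      ← Finset.sum_add_sum_compl B (fun i => (k i : ℝ))]
    ring
  have hK' : (∑ i, (k i : ℝ)) ≤ p * (s + 1) := by exact_mod_cast hK
  have h3 : pot k x B Bᶜ 0 / ((s : ℝ) + 1 - x) ≤ p := by
    rw [div_le_iff₀ hc, hpot]
    linarith
  linarith

end KL
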